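import Mathlib

namespace Pool.Agent.Results.MP_0ebc21_nt.Full

open Filter Topology

/-- The formal power series `Ψ(-q^a, q)`. The first sum collects the terms with index `n ≥ 0`
(sign `(-1)^(n(n+1)/2)`, exponent `a n(n+1)/2 + n(n-1)/2`), the second one the terms with index
`-m ≤ -1`, for which `binom(-m+1,2) = m(m-1)/2` and `binom(-m,2) = m(m+1)/2`. For `a ≥ 1` all
exponents are at least `n`, respectively `m`, so the index ranges are complete. -/
def psi (a : ℕ) : PowerSeries ℤ := PowerSeries.mk fun N =>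
  (∑ n ∈ Finset.range (N + 1),
    if a * (n * (n + 1) / 2) + n * (n - 1) / 2 = N then (-1 : ℤ) ^ (n * (n + 1) / 2) else 0) -
  (∑ m ∈ Finset.Icc 1 N,
    if a * (m * (m - 1) / 2) + m * (m + 1) / 2 = N then (-1 : ℤ) ^ (m * (m - 1) / 2) else 0)

/-- triangular numbers -/
def tri (n : ℕ) : ℕ := n * (n + 1) / 2

theorem tri_succ (n : ℕ) : tri (n + 1) = tri n + (n + 1) := by
  unfold tri
  have : (n + 1) * (n + 1 + 1) = n * (n + 1) + (n + 1) * 2 := by ring
  rw [this, Nat.add_mul_div_right _ _ (by norm_num)]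

theorem tri_pred (n : ℕ) : n * (n - 1) / 2 + n = tri n := by
  cases n with
  | zero => rfl
  | succ k =>
    rw [tri_succ, tri, Nat.succ_sub_one, mul_comm]

/-- exponent of the positive part -/
def e1 (a n : ℕ) : ℕ := a * tri n + n * (n - 1) / 2

/-- exponent of the negative part -/
def e2 (a n : ℕ) : ℕ := a * tri n + tri (n + 1)

theorem e2_eq (a n : ℕ) : e2 a n = e1 a n + (2 * n + 1) := by
  unfold e1 e2
  have h1 := tri_pred n
  have h2 := tri_succ n
  omega

theorem le_tri (n : ℕ) : n ≤ tri n := by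
  have h1 := tri_pred n
  omega

theorem le_e1 (a n : ℕ) (ha : 1 ≤ a) : n ≤ e1 a n := by
  unfold e1
  have h1 := le_tri n
  nlinarith [Nat.zero_le (n * (n - 1) / 2), Nat.mul_le_mul ha h1]

theorem lt_e2 (a n : ℕ) : n + 1 ≤ e2 a n := by
  unfold e2
  have h1 := le_tri (n + 1)
  nlinarith [Nat.zero_le (a * tri n)]

theorem hs_congr {f g : ℕ → ℝ} {s : ℝ} (h : ∀ n, f n = g n) (hg : HasSum g s) : HasSum f s := by
  rwa [show f = g from funext h]

/-- regrouping a lacunary series as a power series -/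
theorem regroup (e : ℕ → ℕ) (s : ℕ → ℤ) (x : ℝ) (he : ∀ n, n ≤ e n)
    (hs : Summable fun n => (s n : ℝ) * x ^ e n) :
    HasSum (fun N => ((∑ n ∈ Finset.range (N + 1), if e n = N then s n else 0 : ℤ) : ℝ) * x ^ N)
      (∑' n, (s n : ℝ) * x ^ e n) := by
  have h := hs.hasSum.tsum_fiberwise e
  refine hs_congr ?_ h
  intro N
  rw [tsum_subtype (e ⁻¹' {N}) (fun n => (s n : ℝ) * x ^ e n)]
  rw [tsum_eq_sum (s := Finset.range (N + 1))]
  · push_cast
    rw [Finset.sum_mul]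
    apply Finset.sum_congr rfl
    intro n _
    by_cases hn : e n = N
    · rw [if_pos hn, Set.indicator_of_mem (by simpa using hn), hn]
    · rw [if_neg hn, Set.indicator_of_notMem (by simpa using hn), zero_mul]
  · intro n hn
    apply Set.indicator_of_notMem
    intro h2
    have h3 : e n = N := by simpa using h2
    apply hn
    have := he n
    exact Finset.mem_range.mpr (by omega)

/-- sign -/
def sg (n : ℕ) : ℤ := (-1) ^ tri n

theorem abs_sg (n : ℕ) : |(sg n : ℝ)| = 1 := by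
  unfold sg
  push_cast
  rw [abs_pow]; simp

theorem bound (e : ℕ → ℕ) (he : ∀ n, n ≤ e n) (x q : ℝ) (hx : 0 ≤ x) (hxq : x ≤ q) (hq : q < 1)
    (n : ℕ) : ‖(sg n : ℝ) * x ^ e n‖ ≤ q ^ n := by
  rw [norm_mul, Real.norm_eq_abs, abs_sg, one_mul, Real.norm_eq_abs, abs_of_nonneg (by positivity)]
  calc x ^ e n ≤ x ^ n := pow_le_pow_of_le_one hx (by linarith) (he n)
    _ ≤ q ^ n := pow_le_pow_left₀ hx hxq n

theorem summ (e : ℕ → ℕ) (he : ∀ n, n ≤ e n) (x : ℝ) (hx : 0 ≤ x) (hx1 : x < 1) :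
    Summable fun n => (sg n : ℝ) * x ^ e n :=
  Summable.of_norm_bounded (summable_geometric_of_lt_one hx hx1)
    (bound e he x x hx le_rfl hx1)

/-- the function -/
noncomputable def F (a : ℕ) (x : ℝ) : ℝ :=
  (∑' n, (sg n : ℝ) * x ^ e1 a n) - ∑' n, (sg n : ℝ) * x ^ e2 a n

theorem psi_coeff (a N : ℕ) : PowerSeries.coeff N (psi a) =
    (∑ n ∈ Finset.range (N + 1), if e1 a n = N then sg n else 0) -
    (∑ n ∈ Finset.range (N + 1), if e2 a n = N then sg n else 0) := by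
  rw [psi, PowerSeries.coeff_mk]
  congr 1
  rw [Finset.sum_range_succ, if_neg (by have := lt_e2 a N; omega), add_zero]
  have h1 : Finset.Icc 1 N = Finset.Ico (0 + 1) (N + 1) := by
    ext i; simp only [Finset.mem_Icc, Finset.mem_Ico]; omega
  rw [h1, Finset.range_eq_Ico, ← Finset.sum_Ico_add' (fun m => if a * (m * (m - 1) / 2) +
    m * (m + 1) / 2 = N then (-1 : ℤ) ^ (m * (m - 1) / 2) else 0) 0 N 1]
  apply Finset.sum_congr rfl
  intro n _
  have h2 : (n + 1) * (n + 1 - 1) / 2 = tri n := by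
    rw [Nat.add_sub_cancel, mul_comm, tri]
  rw [h2]
  rfl

theorem hasSum_F (a : ℕ) (ha : 1 ≤ a) (x : ℝ) (hx : 0 ≤ x) (hx1 : x < 1) :
    HasSum (fun N => ((PowerSeries.coeff N (psi a) : ℤ) : ℝ) * x ^ N) (F a x) := by
  have h1 := regroup (e1 a) sg x (fun n => le_e1 a n ha) (summ _ (fun n => le_e1 a n ha) x hx hx1)
  have h2 := regroup (e2 a) sg x (fun n => by have := lt_e2 a n; omega)
    (summ _ (fun n => by have := lt_e2 a n; omega) x hx hx1)
  refine hs_congr ?_ (h1.sub h2)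
  intro N
  rw [psi_coeff]
  push_cast
  ring

theorem cont_F (a : ℕ) (ha : 1 ≤ a) (q : ℝ) (hq0 : 0 ≤ q) (hq : q < 1) :
    ContinuousOn (F a) (Set.Icc 0 q) := by
  apply ContinuousOn.sub
  · apply continuousOn_tsum (u := fun n => q ^ n)
    · intro n
      fun_prop
    · exact summable_geometric_of_lt_one hq0 hq
    · intro n x hx
      exact bound (e1 a) (fun n => le_e1 a n ha) x q hx.1 hx.2 hq n
  · apply continuousOn_tsum (u := fun n => q ^ n)
    · intro n
      fun_prop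
    · exact summable_geometric_of_lt_one hq0 hq
    · intro n x hx
      exact bound (e2 a) (fun n => by have := lt_e2 a n; omega) x q hx.1 hx.2 hq n

theorem F_zero (a : ℕ) (ha : 1 ≤ a) : F a 0 = 1 := by
  have h := hasSum_F a ha 0 le_rfl one_pos
  have h2 : HasSum (fun N => ((PowerSeries.coeff N (psi a) : ℤ) : ℝ) * (0 : ℝ) ^ N)
      (((PowerSeries.coeff 0 (psi a) : ℤ) : ℝ) * (0 : ℝ) ^ 0) := by
    apply hasSum_single
    intro n hn
    rw [zero_pow hn, mul_zero]
  rw [h.unique h2, psi_coeff]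
  simp [e1, e2, tri, sg]

/-- the combined term -/
theorem F_eq (a : ℕ) (ha : 1 ≤ a) (x : ℝ) (hx : 0 ≤ x) (hx1 : x < 1) :
    HasSum (fun n => (sg n : ℝ) * x ^ e1 a n * (1 - x ^ (2 * n + 1))) (F a x) := by
  have h1 := (summ _ (fun n => le_e1 a n ha) x hx hx1).hasSum
  have h2 := (summ (e2 a) (fun n => by have := lt_e2 a n; omega) x hx hx1).hasSum
  refine hs_congr ?_ (h1.sub h2)
  intro n
  rw [e2_eq, pow_add]
  ring

theorem tri_add_three (k : ℕ) : 6 + 4 * k ≤ tri (k + 3) := by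
  induction k with
  | zero => decide
  | succ k ih =>
    have := tri_succ (k + 3)
    rw [show k + 1 + 3 = k + 3 + 1 by ring, this]
    omega

theorem one_sub_pow_le (x : ℝ) (hx : 0 ≤ x) (n : ℕ) : 1 - x ^ n ≤ n * (1 - x) := by
  have h := one_add_mul_le_pow (a := x - 1) (by linarith) n
  have : (1 + (x - 1)) ^ n = x ^ n := by ring_nf
  rw [this] at h
  linarith

theorem F_neg (a : ℕ) (ha : 1 ≤ a) (q : ℝ) (hq0 : 3 / 5 ≤ q) (hq1 : q < 1) (hqa : q ^ a = 3 / 5) :
    F a q < 0 := by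
  have hq : 0 ≤ q := by linarith
  have hF := F_eq a ha q hq hq1
  have hsum := hF.summable
  have key := hsum.sum_add_tsum_nat_add 3
  rw [hF.tsum_eq] at key
  have hpow : ∀ n, q ^ e1 a n ≤ (3 / 5 : ℝ) ^ tri n := by
    intro n
    rw [← hqa, ← pow_mul]
    apply pow_le_pow_of_le_one hq hq1.le
    unfold e1
    omega
  have htail : ‖∑' k, (sg (k + 3) : ℝ) * q ^ e1 a (k + 3) * (1 - q ^ (2 * (k + 3) + 1))‖ ≤
      ∑' k : ℕ, (1 - q) * (5103 / 15625) * (729 / 4375 : ℝ) ^ k := by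
    apply tsum_of_norm_bounded (Summable.hasSum ?_)
    · intro k
      rw [norm_mul, norm_mul, Real.norm_eq_abs, abs_sg, one_mul, Real.norm_eq_abs,
        Real.norm_eq_abs, abs_of_nonneg (by positivity),
        abs_of_nonneg (by have := pow_le_one₀ (n := 2 * (k + 3) + 1) hq hq1.le; linarith)]
      have h1 := hpow (k + 3)
      have h2 : (3 / 5 : ℝ) ^ tri (k + 3) ≤ (3 / 5 : ℝ) ^ (6 + 4 * k) :=
        pow_le_pow_of_le_one (by norm_num) (by norm_num) (tri_add_three k)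
      have h3 := one_sub_pow_le q hq (2 * (k + 3) + 1)
      have h4 := one_add_mul_le_pow (a := (2 / 7 : ℝ)) (by norm_num) k
      have h5 : ((2 * (k + 3) + 1 : ℕ) : ℝ) ≤ 7 * (9 / 7) ^ k := by
        push_cast
        have : (1 + 2 / 7 : ℝ) = 9 / 7 := by norm_num
        rw [this] at h4
        linarith
      have h6 : 0 ≤ 1 - q := by linarith
      calc q ^ e1 a (k + 3) * (1 - q ^ (2 * (k + 3) + 1))
          ≤ (3 / 5 : ℝ) ^ (6 + 4 * k) * (((2 * (k + 3) + 1 : ℕ) : ℝ) * (1 - q)) := by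
            apply mul_le_mul (h1.trans h2) h3 _ (by positivity)
            have := pow_le_one₀ (n := 2 * (k + 3) + 1) hq hq1.le
            linarith
        _ ≤ (3 / 5 : ℝ) ^ (6 + 4 * k) * ((7 * (9 / 7) ^ k) * (1 - q)) := by
            apply mul_le_mul_of_nonneg_left _ (by positivity)
            exact mul_le_mul_of_nonneg_right h5 h6
        _ = (1 - q) * (5103 / 15625) * (729 / 4375 : ℝ) ^ k := by
            rw [pow_add, pow_mul]
            have : (729 / 4375 : ℝ) = (3 / 5) ^ 4 * (9 / 7) := by norm_num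
            rw [this, mul_pow ((3 / 5 : ℝ) ^ 4) (9 / 7) k]
            ring
    · exact (summable_geometric_of_lt_one (by norm_num) (by norm_num)).mul_left _
  rw [tsum_mul_left, tsum_geometric_of_lt_one (by norm_num) (by norm_num)] at htail
  have htail2 := (le_abs_self _).trans htail
  have hhead : ∑ n ∈ Finset.range 3, (sg n : ℝ) * q ^ e1 a n * (1 - q ^ (2 * n + 1)) =
      (1 - q) * (1 - 3 / 5 * (1 + q + q ^ 2) - 27 / 125 * (q * (1 + q + q ^ 2 + q ^ 3 + q ^ 4))) := by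
    rw [Finset.sum_range_succ, Finset.sum_range_succ, Finset.sum_range_one]
    have t0 : e1 a 0 = 0 := by simp [e1, tri]
    have t1 : e1 a 1 = a := by simp [e1, tri]
    have t2 : e1 a 2 = a * 3 + 1 := by simp [e1, tri]
    have s0 : (sg 0 : ℝ) = 1 := by simp [sg, tri]
    have s1 : (sg 1 : ℝ) = -1 := by simp [sg, tri]
    have s2 : (sg 2 : ℝ) = -1 := by
      have : tri 2 = 3 := by decide
      simp [sg, this, pow_succ]
    have p2 : q ^ (a * 3 + 1) = (3 / 5) ^ 3 * q := by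
      rw [pow_add, pow_mul, hqa, pow_one]
    rw [t0, t1, t2, s0, s1, s2, p2, hqa]
    ring
  rw [hhead] at key
  have h1q : 0 < 1 - q := by linarith
  have hA : 49 / 25 ≤ 1 + q + q ^ 2 := by nlinarith
  have hB : 8646 / 6250 ≤ q * (1 + q + q ^ 2 + q ^ 3 + q ^ 4) := by
    have g2 : (3 / 5 : ℝ) ^ 2 ≤ q ^ 2 := pow_le_pow_left₀ (by norm_num) hq0 2
    have g3 : (3 / 5 : ℝ) ^ 3 ≤ q ^ 3 := pow_le_pow_left₀ (by norm_num) hq0 3
    have g4 : (3 / 5 : ℝ) ^ 4 ≤ q ^ 4 := pow_le_pow_left₀ (by norm_num) hq0 4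
    have g5 : (3 / 5 : ℝ) ^ 5 ≤ q ^ 5 := pow_le_pow_left₀ (by norm_num) hq0 5
    have : q * (1 + q + q ^ 2 + q ^ 3 + q ^ 4) = q + q ^ 2 + q ^ 3 + q ^ 4 + q ^ 5 := by ring
    rw [this]
    norm_num at g2 g3 g4 g5
    linarith
  have hfin : F a q ≤ (1 - q) * (1 - 3 / 5 * (49 / 25) - 27 / 125 * (8646 / 6250) +
      5103 / 15625 * (1 - 729 / 4375)⁻¹) := by
    rw [← key]
    have : (1 - q) * (1 - 3 / 5 * (1 + q + q ^ 2) -
        27 / 125 * (q * (1 + q + q ^ 2 + q ^ 3 + q ^ 4))) ≤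
        (1 - q) * (1 - 3 / 5 * (49 / 25) - 27 / 125 * (8646 / 6250)) := by
      apply mul_le_mul_of_nonneg_left _ h1q.le
      linarith
    calc _ ≤ _ := add_le_add this htail2
      _ = _ := by ring
  refine lt_of_le_of_lt hfin ?_
  apply mul_neg_of_pos_of_neg h1q
  norm_num

/-- existence of the point `q` with `q^a = 3/5` -/
theorem exists_q (a : ℕ) (ha : 1 ≤ a) : ∃ q : ℝ, 3 / 5 ≤ q ∧ q < 1 ∧ q ^ a = 3 / 5 := by
  refine ⟨(3 / 5 : ℝ) ^ ((a : ℝ)⁻¹), ?_, ?_, ?_⟩
  · have h : (3 / 5 : ℝ) ^ (1 : ℝ) ≤ (3 / 5 : ℝ) ^ ((a : ℝ)⁻¹) := by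
      apply Real.rpow_le_rpow_of_exponent_ge (by norm_num) (by norm_num)
      apply inv_le_one_of_one_le₀
      exact_mod_cast ha
    rwa [Real.rpow_one] at h
  · apply Real.rpow_lt_one (by norm_num) (by norm_num)
    have : (0 : ℝ) < a := by exact_mod_cast ha
    positivity
  · exact Real.rpow_inv_natCast_pow (by norm_num) (by omega)

theorem exists_root (a : ℕ) (ha : 1 ≤ a) : ∃ r : ℝ, 0 ≤ r ∧ r < 1 ∧ F a r = 0 := by
  obtain ⟨q, h1, h2, h3⟩ := exists_q a ha
  have hneg := F_neg a ha q h1 h2 h3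
  have hc := cont_F a ha q (by linarith) h2
  have := intermediate_value_Icc' (show (0 : ℝ) ≤ q by linarith) hc
  have h0 : (0 : ℝ) ∈ Set.Icc (F a q) (F a 0) := ⟨hneg.le, by rw [F_zero a ha]; norm_num⟩
  obtain ⟨r, hr, hr2⟩ := this h0
  exact ⟨r, hr.1, lt_of_le_of_lt hr.2 h2, hr2⟩

theorem result (a : ℕ) (ha : 1 ≤ a) (c : ℕ → ℤ) (hc : psi a * PowerSeries.mk c = 1) :
    ∃ β : ℝ, 1 < β ∧ ∃ᶠ n in atTop, β ^ n ≤ |(c n : ℝ)| := by
  by_contra hcon
  push Not at hcon
  obtain ⟨r, hr0, hr1, hroot⟩ := exists_root a ha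
  -- choose `β` with `β r < 1`
  obtain ⟨β, hβ1, hβr⟩ : ∃ β : ℝ, 1 < β ∧ β * r < 1 := by
    rcases hr0.eq_or_lt with h | h
    · exact ⟨2, by norm_num, by rw [← h]; norm_num⟩
    · refine ⟨(1 + r⁻¹) / 2, ?_, ?_⟩
      · have := one_lt_inv_iff₀.mpr ⟨h, hr1⟩
        linarith
      · have : r⁻¹ * r = 1 := inv_mul_cancel₀ h.ne'
        nlinarith
  have hev := hcon β hβ1
  have hβ0 : 0 ≤ β := by linarith
  have hsc : Summable fun n => ‖(c n : ℝ) * r ^ n‖ := by
    have hg := summable_geometric_of_lt_one (mul_nonneg hβ0 hr0) hβr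
    refine Summable.of_norm_bounded_eventually_nat hg ?_
    have : ∀ᶠ n in atTop, ‖(‖(c n : ℝ) * r ^ n‖ : ℝ)‖ ≤ (β * r) ^ n := by
      filter_upwards [hev] with n hn
      rw [norm_norm, norm_mul, Real.norm_eq_abs, Real.norm_eq_abs, abs_of_nonneg (pow_nonneg hr0 n),
        mul_pow]
      apply mul_le_mul_of_nonneg_right _ (pow_nonneg hr0 n)
      exact hn.le
    exact this
  have hF := hasSum_F a ha r hr0 hr1
  have hsp : Summable fun n => ‖((PowerSeries.coeff n (psi a) : ℤ) : ℝ) * r ^ n‖ := by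
    exact hF.summable.norm
  have hprod := tsum_mul_tsum_eq_tsum_sum_antidiagonal_of_summable_norm hsp hsc
  rw [hF.tsum_eq, hroot, zero_mul] at hprod
  have hcoef : ∀ n, ∑ kl ∈ Finset.HasAntidiagonal.antidiagonal n,
      (((PowerSeries.coeff kl.1 (psi a) : ℤ) : ℝ) * r ^ kl.1) * ((c kl.2 : ℝ) * r ^ kl.2) =
      if n = 0 then 1 else 0 := by
    intro n
    have h1 : (PowerSeries.coeff n (psi a * PowerSeries.mk c) : ℤ) = if n = 0 then 1 else 0 := by
      rw [hc, PowerSeries.coeff_one]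
    rw [PowerSeries.coeff_mul] at h1
    have h2 : ∑ kl ∈ Finset.HasAntidiagonal.antidiagonal n,
      (((PowerSeries.coeff kl.1 (psi a) : ℤ) : ℝ) * r ^ kl.1) * ((c kl.2 : ℝ) * r ^ kl.2) =
      ((∑ kl ∈ Finset.HasAntidiagonal.antidiagonal n, PowerSeries.coeff kl.1 (psi a) *
        PowerSeries.coeff kl.2 (PowerSeries.mk c) : ℤ) : ℝ) * r ^ n := by
      push_cast
      rw [Finset.sum_mul]
      apply Finset.sum_congr rfl
      intro kl hkl
      rw [Finset.HasAntidiagonal.mem_antidiagonal] at hkl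
      rw [← hkl, pow_add, PowerSeries.coeff_mk]
      ring
    rw [h2, h1]
    split_ifs with h
    · simp [h]
    · simp
  rw [tsum_congr hcoef] at hprod
  simp at hprod

end Pool.Agent.Results.MP_0ebc21_nt.Full
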